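import Mathlib

set_option autoImplicit false

namespace Pool.Agent.Results.MP_eff1f1_co.BadFace

open Finset

variable {n : ℕ}

def closure (d : ℕ) (Γ : Set (Finset (Fin n))) : Set (Finset (Fin n)) :=
  {F | F.card ≤ d ∨ ∀ G ⊆ F, G.card = d + 1 → G ∈ Γ}

def Facet (Γ : Set (Finset (Fin n))) (F : Finset (Fin n)) : Prop := Maximal (· ∈ Γ) F

/-- `E` is a free face with `d` elements (dimension `d - 1`). -/
def Simp (d : ℕ) (Γ : Set (Finset (Fin n))) (E : Finset (Fin n)) : Prop :=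
  E ∈ Γ ∧ E.card = d ∧ ∃! F, Facet Γ F ∧ E ⊆ F

def del (Γ : Set (Finset (Fin n))) (E : Finset (Fin n)) : Set (Finset (Fin n)) :=
  {F ∈ Γ | ¬ E ⊂ F}

inductive Chordal (d : ℕ) : Set (Finset (Fin n)) → Prop
  | base : Chordal d {F | F.card ≤ d}
  | step (Γ : Set (Finset (Fin n))) (E : Finset (Fin n)) :
      Simp d Γ E → ¬ Facet Γ E → Chordal d (del Γ E) → Chordal d Γ

def K (L : List (Finset (Fin n))) : Set (Finset (Fin n)) := {F | F.card ≤ 3 ∨ ∃ T ∈ L, F ⊆ T}

def Ok (E T : Finset (Fin n)) (L M : List (Finset (Fin n))) : Prop :=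
  E.card = 3 ∧ E ⊆ T ∧ 3 < T.card ∧ (∀ X ∈ L ++ M, ¬ E ⊆ X) ∧ (∀ X ∈ M, X ⊆ T) ∧
    ∀ v ∈ E, T.card ≤ 4 ∨ T.erase v ∈ M

theorem Ok.simp {E T : Finset (Fin n)} {L M : List (Finset (Fin n))} (h : Ok E T L M) :
    Simp 3 (K (T :: L)) E ∧ ¬ Facet (K (T :: L)) E ∧ del (K (T :: L)) E = K (L ++ M) := by
  obtain ⟨h2, h3, h4, h5, h6, h7⟩ := h
  have hT : T ∈ K (T :: L) := .inr ⟨T, by simp, le_rfl⟩
  have k : ∀ F ∈ K (T :: L), E ⊆ F → F ⊆ T := by
    rintro F (a | ⟨X, a, b⟩) c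
    · rwa [← eq_of_subset_of_card_le c (by omega)]
    · rcases List.mem_cons.1 a with rfl | a
      exacts [b, absurd (c.trans b) (h5 X (by simp [a]))]
  refine ⟨⟨.inl h2.le, h2, T, ⟨⟨hT, fun F a b => k F a (h3.trans b)⟩, h3⟩,
    fun F ⟨a, b⟩ => (k F a.1 b).antisymm (a.2 hT (k F a.1 b))⟩,
    fun a => by have := card_le_card (a.2 hT h3); omega, ?_⟩
  ext F
  constructor
  · rintro ⟨a | ⟨X, a, b⟩, c⟩
    · exact .inl a
    by_cases e : F.card ≤ 3
    · exact .inl e
    rcases List.mem_cons.1 a with rfl | a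
    · obtain ⟨v, p, q⟩ : ∃ v ∈ E, v ∉ F := by
        by_contra! q
        exact c (Finset.ssubset_iff_subset_ne.2 ⟨q, fun r => e (r ▸ h2.le)⟩)
      have r : F ⊆ X.erase v := subset_erase.2 ⟨b, q⟩
      have := card_le_card r
      rw [card_erase_of_mem (h3 p)] at this
      exact .inr ⟨_, List.mem_append_right _ ((h7 v p).resolve_left (by omega)), r⟩
    · exact .inr ⟨X, by simp [a], b⟩
  · rintro (a | ⟨X, a, b⟩)
    · exact ⟨.inl a, fun c => by have := card_lt_card c; omega⟩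
    refine ⟨.inr ?_, fun c => h5 X a (c.subset.trans b)⟩
    rcases List.mem_append.1 a with a | a
    exacts [⟨X, by simp [a], b⟩, ⟨T, by simp, b.trans (h6 X a)⟩]

def S (m : ℕ) : Finset (Fin 10) := univ.filter fun i => m.testBit i

theorem sub {a : ℕ} (b : ℕ) (h : a < 1024) : S a ⊆ S b ↔ a &&& b = a := by
  simp only [S, subset_iff, mem_filter, mem_univ, true_and]
  refine ⟨fun k => Nat.eq_of_testBit_eq fun i => ?_, fun k i p => ?_⟩
  · by_cases c : i < 10
    · have := @k ⟨i, c⟩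
      simpa using this
    · simp [Nat.testBit_lt_two_pow (h.trans_le (Nat.pow_le_pow_right (n := 2) (by omega)
        (not_lt.1 c)))]
  · rw [← k, Nat.testBit_and] at p
    simp_all

theorem era {a : ℕ} (b : ℕ) (v : Fin 10) (h : a < 1024) :
    (S a).erase v ⊆ S b ↔ a &&& (b ||| 2 ^ v.val) = a := by
  rw [← subset_insert_iff, ← sub _ h]
  have : S (b ||| 2 ^ v.val) = insert v (S b) := by
    ext i
    simp only [S, mem_filter, mem_univ, true_and, Nat.testBit_or, Nat.testBit_two_pow, mem_insert,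
      Bool.or_eq_true, decide_eq_true_eq, Fin.ext_iff]
    tauto
  rw [this]

def chk : List ℕ → List ℕ → Bool
  | [], _ => true
  | _ :: _, [] => false
  | T :: L, E :: s => ((S E).card = 3 ∧ (S T).card = 4 ∧ E < 1024 ∧ E &&& T = E ∧
      ∀ X ∈ L, E &&& X ≠ E) && chk L s

theorem chord : ∀ L s : List ℕ, chk L s = true → Chordal 3 (K (L.map S))
  | [], _, _ => by
    convert Chordal.base using 1
    simp [K]
  | _ :: _, [], h => by simp [chk] at h
  | T :: L, E :: s, h => by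
    simp only [chk, Bool.and_eq_true, decide_eq_true_eq] at h
    obtain ⟨⟨h1, h2, h3, h4, h5⟩, h6⟩ := h
    obtain ⟨a, b, c⟩ := Ok.simp (E := S E) (T := S T) (L := L.map S) (M := [])
      ⟨h1, (sub _ h3).2 h4, by omega, by simpa [sub _ h3] using h5, by simp, fun _ _ => .inl h2.le⟩
    exact .step _ _ a b (by rw [List.map_cons, c, List.append_nil]; exact chord L s h6)

theorem ok (E T : ℕ) (L M : List ℕ) (h : (S E).card = 3 ∧ 3 < (S T).card ∧ E < 1024 ∧
    E &&& T = E ∧ (∀ X ∈ L ++ M, E &&& X ≠ E) ∧ (∀ X ∈ M.map S, X ⊆ S T) ∧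
    ∀ v ∈ S E, (S T).erase v ∈ M.map S) : Ok (S E) (S T) (L.map S) (M.map S) := by
  obtain ⟨h1, h2, h3, h4, h5, h6, h7⟩ := h
  refine ⟨h1, (sub _ h3).2 h4, h2, ?_, h6, fun v p => .inr (h7 v p)⟩
  rw [← List.map_append]
  simpa only [List.forall_mem_map, sub _ h3] using h5

theorem stuck (L : List (Finset (Fin n))) (h0 : ∃ T, T ∈ L) (h : ∀ T ∈ L, T.card = 4 ∧
    ∀ v ∈ T, ∃ X ∈ L, X ≠ T ∧ T.erase v ⊆ X) : ¬ Chordal 3 (K L) := by
  intro c
  generalize e : K L = Γ at c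
  cases c with
  | base =>
    obtain ⟨T, a⟩ := h0
    have : T ∈ K L := .inr ⟨T, a, le_rfl⟩
    rw [e] at this
    have b := (h T a).1
    simp only [Set.mem_ofPred_eq] at this
    omega
  | step _ E a b _ =>
    subst e
    have fa : ∀ T ∈ L, Facet (K L) T := fun T p => ⟨.inr ⟨T, p, le_rfl⟩, by
      have := (h T p).1
      rintro F (q | ⟨X, q, r⟩) s
      · have := card_le_card s; omega
      · have := (h X q).1
        rwa [eq_of_subset_of_card_le (s.trans r) (by omega)]⟩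
    obtain ⟨a1, a2, F, ⟨a3, a4⟩, a5⟩ := a
    have ne : E ≠ F := fun r => b (r ▸ a3)
    have lt := card_lt_card (Finset.ssubset_iff_subset_ne.2 ⟨a4, ne⟩)
    obtain q | ⟨T, q, r⟩ := a3.1
    · omega
    have := (h T q).1
    obtain ⟨v, p, s⟩ := exists_of_ssubset (Finset.ssubset_iff_subset_ne.2 ⟨a4.trans r, by
      rintro rfl; omega⟩)
    obtain ⟨X, t, u, w⟩ := (h T q).2 v p
    exact u ((a5 X ⟨fa X t, (subset_erase.2 ⟨a4.trans r, s⟩).trans w⟩).trans
      (a5 T ⟨fa T q, a4.trans r⟩).symm)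

def L : List ℕ := [323, 389, 305, 401, 353, 390, 450, 332, 356, 420, 312, 408, 424, 456, 579, 645,
  561, 657, 609, 646, 706, 588, 612, 676, 568, 664, 680, 712, 523, 525, 526]
def M0 : List ℕ := [270, 263, 15]
def M1 : List ℕ := [270, 269, 267]
def R : List ℕ := [270, 332, 356, 353, 323, 305, 401, 389, 450, 390, 420, 312, 408, 424, 456, 579,
  645, 561, 657, 609, 646, 706, 588, 612, 676, 568, 664, 680, 712, 523, 525, 526, 263, 15]

theorem c0 : (∀ X ∈ R, X ∈ L ++ M0) ∧ ∀ X ∈ L ++ M0, X ∈ R := by decide +kernel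
theorem c1 : chk R [266, 268, 324, 352, 321, 289, 273, 385, 322, 386, 388, 304, 400, 416, 448, 67,
  133, 49, 641, 577, 134, 642, 76, 608, 644, 560, 656, 672, 704, 515, 521, 524, 262, 14] = true :=
  by
  decide +kernel
theorem c2 : Ok (S 7) (S 271) (L.map S) (M1.map S) := ok _ _ _ _ (by decide +kernel)
theorem c2' : Ok (S 265) (S 271) (L.map S) (M0.map S) := ok _ _ _ _ (by decide +kernel)
theorem c3 : ∀ T ∈ L ++ M1, T < 1024 ∧ (S T).card = 4 ∧ ∀ v : Fin 10, T.testBit v →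
    ∃ X ∈ L ++ M1, T &&& X ≠ T ∧ T &&& (X ||| 2 ^ v.val) = T := by decide +kernel
theorem c4 : ∀ m < 1024, (∀ v : Fin 10, m.testBit v → ∃ T ∈ 271 :: L,
    m &&& (T ||| 2 ^ v.val) = m) → m = 271 ∨ (S m).card ≤ 4 := by decide +kernel

theorem cl : closure 3 (K (S 271 :: L.map S)) = K (S 271 :: L.map S) := by
  ext F
  constructor
  · rintro (a | a)
    · exact .inl a
    rcases lt_trichotomy F.card 4 with b | b | b
    · exact .inl (by omega)
    · exact a F le_rfl b
    · refine .inr ⟨S 271, by simp, fun v p => ?_⟩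
      obtain ⟨G, q, r, s⟩ := exists_subsuperset_card_eq (n := 5) (singleton_subset_iff.2 p)
        (by simp) b
      obtain ⟨m, hm, rfl⟩ : ∃ m < 1024, G = S m := ⟨Nat.ofBits fun i : Fin 10 => i ∈ G,
        Nat.ofBits_lt_two_pow _, by ext i; simp [S]⟩
      rw [← (c4 m hm fun w t => ?_).resolve_right (by omega)]
      · exact q (mem_singleton_self v)
      · have u : ((S m).erase w).card = 4 := by rw [card_erase_of_mem (by simpa [S] using t), s]
        have := (a _ ((erase_subset _ _).trans r) u).resolve_left (by omega)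
        rw [← List.map_cons] at this
        simpa only [List.mem_map, exists_exists_and_eq_and, era _ _ hm] using this
  · rintro (a | ⟨T, a, b⟩)
    · exact .inl a
    · exact .inr fun G c _ => .inr ⟨T, a, c.trans b⟩

theorem result : ∃ (d n : ℕ) (Γ : Set (Finset (Fin n))) (E : Finset (Fin n)), 1 ≤ d ∧
    IsLowerSet Γ ∧ closure d Γ = Γ ∧ Chordal d Γ ∧ Simp d Γ E ∧ ¬ Chordal d (del Γ E) := by
  refine ⟨3, 10, K (S 271 :: L.map S), S 7, by omega, ?_, cl,
    .step _ _ c2'.simp.1 c2'.simp.2.1 ?_, c2.simp.1, ?_⟩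
  · rintro F G a (b | ⟨T, b, c⟩)
    exacts [.inl ((card_le_card a).trans b), .inr ⟨T, b, a.trans c⟩]
  · rw [c2'.simp.2.2, ← List.map_append]
    convert chord _ _ c1 using 1
    ext F
    simp only [K, Set.mem_ofPred_eq, List.mem_map, exists_exists_and_eq_and]
    exact or_congr_right (exists_congr fun T => and_congr_left' ⟨c0.2 T, c0.1 T⟩)
  · rw [c2.simp.2.2, ← List.map_append]
    refine stuck _ ⟨S 323, List.mem_map_of_mem (by decide)⟩ ?_
    rw [List.forall_mem_map]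
    simp only [List.mem_map, exists_exists_and_eq_and]
    intro T p
    obtain ⟨a, b, c⟩ := c3 T p
    refine ⟨b, fun v q => ?_⟩
    obtain ⟨X, r, s, t⟩ := c v (by simpa [S] using q)
    exact ⟨X, r, fun e => s ((sub _ a).1 e.ge), (era _ _ a).2 t⟩

end Pool.Agent.Results.MP_eff1f1_co.BadFace
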